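import Pool.Agent.W759.FD.Defs

namespace Pool.Agent.W397.FDP3

open MeasureTheory ProbabilityTheory Set Filter
open scoped ENNReal Topology
open Pool.Agent.W759.FD

universe u

noncomputable def sec {A B : Type u} [MeasurableSpace B] (b : Measure B) (ψ : Set (A × B))
    (x : A) : ℝ := (b (Prod.mk x ⁻¹' ψ)).toReal

section

variable {A B : Type u} [MeasurableSpace A] [MeasurableSpace B] (a : Measure A) (b : Measure B)
  [IsProbabilityMeasure a] [IsProbabilityMeasure b]

lemma sec_meas {ψ : Set (A × B)} (hψ : MeasurableSet ψ) : Measurable (sec b ψ) :=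
  (measurable_measure_prodMk_left hψ).ennreal_toReal

lemma sec_bd (ψ : Set (A × B)) (x : A) : 0 ≤ sec b ψ x ∧ sec b ψ x ≤ 1 := by
  refine ⟨ENNReal.toReal_nonneg, ?_⟩
  unfold sec
  have h := prob_le_one (μ := b) (s := Prod.mk x ⁻¹' ψ)
  calc (b (Prod.mk x ⁻¹' ψ)).toReal ≤ (1 : ℝ≥0∞).toReal :=
        ENNReal.toReal_mono ENNReal.one_ne_top h
    _ = 1 := by simp

lemma setint {ψ : Set (A × B)} (hψ : MeasurableSet ψ) (f : A → ℝ) (hf : Measurable f)
    (hb : ∀ x, |f x| ≤ 1) :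
    ∫ q in ψ, f q.1 ∂(a.prod b) = ∫ x, f x * sec b ψ x ∂a := by
  rw [← integral_indicator hψ]
  have hm : Measurable (ψ.indicator (fun q : A × B => f q.1)) :=
    (hf.comp measurable_fst).indicator hψ
  have hint : Integrable (ψ.indicator (fun q : A × B => f q.1)) (a.prod b) := by
    refine Integrable.of_bound hm.aestronglyMeasurable 1 (Eventually.of_forall ?_)
    intro q
    rw [Real.norm_eq_abs]
    by_cases hq : q ∈ ψ
    · rw [indicator_of_mem hq]; exact hb _
    · rw [indicator_of_notMem hq]; simp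
  rw [integral_prod _ hint]
  refine integral_congr_ae (Eventually.of_forall ?_)
  intro x
  have h1 : (fun y => ψ.indicator (fun q : A × B => f q.1) (x, y)) =
      (Prod.mk x ⁻¹' ψ).indicator (fun _ => f x) := by
    funext y
    by_cases hq : (x, y) ∈ ψ
    · rw [indicator_of_mem hq, indicator_of_mem (show y ∈ Prod.mk x ⁻¹' ψ from hq)]
    · rw [indicator_of_notMem hq, indicator_of_notMem (show y ∉ Prod.mk x ⁻¹' ψ from hq)]
  show ∫ y, ψ.indicator (fun q : A × B => f q.1) (x, y) ∂b = f x * sec b ψ x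
  rw [h1, integral_indicator_const _ (measurable_prodMk_left hψ)]
  unfold sec
  rw [smul_eq_mul, mul_comm]
  rfl

lemma nullsec {ψ : Set (A × B)} (hψ : MeasurableSet ψ) :
    (a.prod b) {q | q ∈ ψ ∧ sec b ψ q.1 = 0} = 0 := by
  have hm : MeasurableSet {q : A × B | q ∈ ψ ∧ sec b ψ q.1 = 0} := by
    refine hψ.inter ?_
    exact ((sec_meas b hψ).comp measurable_fst) (measurableSet_singleton 0)
  rw [Measure.measure_prod_null hm]
  refine Eventually.of_forall ?_
  intro x
  show b (Prod.mk x ⁻¹' {q | q ∈ ψ ∧ sec b ψ q.1 = 0}) = 0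
  by_cases h : sec b ψ x = 0
  · have h0 : b (Prod.mk x ⁻¹' ψ) = 0 := by
      rcases (ENNReal.toReal_eq_zero_iff _).1 h with h' | h'
      · exact h'
      · exact absurd h' (measure_ne_top _ _)
    refine measure_mono_null ?_ h0
    intro y hy
    exact hy.1
  · have : Prod.mk x ⁻¹' {q : A × B | q ∈ ψ ∧ sec b ψ q.1 = 0} = ∅ := by
      ext y
      simp only [mem_preimage, mem_setOf_eq, mem_empty_iff_false, iff_false, not_and]
      intro _
      exact h
    rw [this]; simp

end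

section

variable {L M R : Type u} [MeasurableSpace L] [MeasurableSpace M] [MeasurableSpace R]

/-- move r to the front -/
def e1 : L × M × R ≃ᵐ R × (L × M) := MeasurableEquiv.prodAssoc.symm.trans MeasurableEquiv.prodComm

/-- move z to the front -/
def e2 : L × M × R ≃ᵐ M × (L × R) :=
  (MeasurableEquiv.prodAssoc.symm.trans
    (MeasurableEquiv.prodCongr MeasurableEquiv.prodComm (MeasurableEquiv.refl R))).trans
    MeasurableEquiv.prodAssoc

lemma e1_apply (q : L × M × R) : e1 q = (q.2.2, (q.1, q.2.1)) := rfl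

lemma e2_apply (q : L × M × R) : e2 q = (q.2.1, (q.1, q.2.2)) := rfl

variable (μ : Measure L) (ρ : Measure M) (ν : Measure R)
  [IsProbabilityMeasure μ] [IsProbabilityMeasure ρ] [IsProbabilityMeasure ν]

lemma mp1 : MeasurePreserving (e1 (L := L) (M := M) (R := R)) (μ.prod (ρ.prod ν))
    (ν.prod (μ.prod ρ)) := by
  have h1 : MeasurePreserving (MeasurableEquiv.prodAssoc (α := L) (β := M) (γ := R)).symm
      (μ.prod (ρ.prod ν)) ((μ.prod ρ).prod ν) :=
    (measurePreserving_prodAssoc μ ρ ν).symm _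
  have h2 : MeasurePreserving (Prod.swap : (L × M) × R → R × (L × M))
      ((μ.prod ρ).prod ν) (ν.prod (μ.prod ρ)) := Measure.measurePreserving_swap
  exact h2.comp h1

lemma mp2 : MeasurePreserving (e2 (L := L) (M := M) (R := R)) (μ.prod (ρ.prod ν))
    (ρ.prod (μ.prod ν)) := by
  have h1 : MeasurePreserving (MeasurableEquiv.prodAssoc (α := L) (β := M) (γ := R)).symm
      (μ.prod (ρ.prod ν)) ((μ.prod ρ).prod ν) :=
    (measurePreserving_prodAssoc μ ρ ν).symm _
  have h2 : MeasurePreserving (Prod.swap : L × M → M × L)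
      (μ.prod ρ) (ρ.prod μ) := Measure.measurePreserving_swap
  have h3 := h2.prod (MeasurePreserving.id ν)
  exact (measurePreserving_prodAssoc ρ μ ν).comp (h3.comp h1)

end

theorem t3 : P2.{u} → P3.{u} := by
  intro hP2 L M R _ _ _ μ ρ ν _ _ _ ξ η α β ψ hξ hη sξ sη sα sβ hψ hch hw1 hw2
  set ψ' : Set (R × (L × M)) := e1 '' ψ with hψ'def
  have hψ' : MeasurableSet ψ' := (e1 (L := L) (M := M) (R := R)).measurableEmbedding.measurableSet_image.2 hψ
  have hpre : e1 ⁻¹' ψ' = ψ := by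
    rw [hψ'def]; exact preimage_image_eq _ (e1 (L := L) (M := M) (R := R)).injective
  set κ : L → ℝ := sec (ρ.prod ν) ψ with hκ
  set κ' : R → ℝ := sec (μ.prod ρ) ψ' with hκ'
  have mκ : Measurable κ := sec_meas _ hψ
  have mκ' : Measurable κ' := sec_meas _ hψ'
  have bsign : ∀ x : ℝ, IsSign x → |x| ≤ 1 := by
    rintro x (h | h) <;> rw [h] <;> simp
  have bprod : ∀ x y : ℝ, |x| ≤ 1 → |y| ≤ 1 → |x * y| ≤ 1 := by
    intro x y hx hy
    rw [abs_mul]
    exact mul_le_one₀ hx (abs_nonneg _) hy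
  have c1 : ∀ w : L → ℝ, Measurable w → (∀ l, |w l| ≤ 1) →
      Tendsto (fun c => ∫ l, w l * κ l * ξ c l ∂μ) atTop (𝓝 0) := by
    intro w hw hwb
    have h := hw1 (fun q => w q.1) (hw.comp measurable_fst) (fun q => hwb _)
    refine h.congr ?_
    intro c
    have := setint μ (ρ.prod ν) hψ (fun l => w l * ξ c l) (hw.mul (hξ c))
      (fun l => bprod _ _ (hwb l) (bsign _ (sξ c l)))
    rw [this]
    refine integral_congr_ae (Eventually.of_forall ?_)
    intro l
    show w l * ξ c l * κ l = w l * κ l * ξ c l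
    ring
  have c2 : ∀ w : R → ℝ, Measurable w → (∀ r, |w r| ≤ 1) →
      Tendsto (fun c => ∫ r, w r * κ' r * η c r ∂ν) atTop (𝓝 0) := by
    intro w hw hwb
    have h := hw2 (fun q => w q.2.2) (hw.comp (measurable_snd.comp measurable_snd))
      (fun q => hwb _)
    refine h.congr ?_
    intro c
    have h1 := setint ν (μ.prod ρ) hψ' (fun r => w r * η c r) (hw.mul (hη c))
      (fun r => bprod _ _ (hwb r) (bsign _ (sη c r)))
    have h2 := (mp1 μ ρ ν).setIntegral_preimage_emb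
      (e1 (L := L) (M := M) (R := R)).measurableEmbedding
      (fun p : R × (L × M) => w p.1 * η c p.1) ψ'
    rw [hpre] at h2
    have h3 : ∫ q in ψ, w q.2.2 * η c q.2.2 ∂(μ.prod (ρ.prod ν)) =
        ∫ r, w r * η c r * κ' r ∂ν := by
      rw [← h1, ← h2]
      rfl
    rw [h3]
    refine integral_congr_ae (Eventually.of_forall ?_)
    intro r
    show w r * η c r * κ' r = w r * κ' r * η c r
    ring
  -- the sections over z
  have hz : ∀ z : M, ∀ᵐ q ∂(μ.prod ν), (q.1, z, q.2) ∈ ψ → κ q.1 * κ' q.2 = 0 := by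
    intro z
    have hmz : Measurable (fun q : L × R => (q.1, z, q.2)) :=
      measurable_fst.prodMk (measurable_const.prodMk measurable_snd)
    exact hP2 L R μ ν κ κ' ξ (fun c l => α c l z) η (fun c r => β c z r)
      ((fun q : L × R => (q.1, z, q.2)) ⁻¹' ψ) mκ mκ' (sec_bd _ _) (sec_bd _ _) hξ hη sξ sη
      (fun c l => sα c l z) (fun c r => sβ c z r) (hmz hψ)
      (fun c l r h => hch c l z r h) c1 c2
  -- N is null
  have hN : (μ.prod (ρ.prod ν)) {q | q ∈ ψ ∧ κ q.1 * κ' q.2.2 ≠ 0} = 0 := by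
    have hgm : Measurable (fun q : L × M × R => κ q.1 * κ' q.2.2) :=
      (mκ.comp measurable_fst).mul (mκ'.comp (measurable_snd.comp measurable_snd))
    have hNm : MeasurableSet {q : L × M × R | q ∈ ψ ∧ κ q.1 * κ' q.2.2 ≠ 0} :=
      hψ.inter (hgm (measurableSet_singleton 0).compl)
    set N : Set (L × M × R) := {q | q ∈ ψ ∧ κ q.1 * κ' q.2.2 ≠ 0} with hNdef
    have hN' : MeasurableSet (e2 '' N) :=
      (e2 (L := L) (M := M) (R := R)).measurableEmbedding.measurableSet_image.2 hNm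
    have hpre2 : e2 ⁻¹' (e2 '' N) = N := preimage_image_eq _ (e2 (L := L) (M := M) (R := R)).injective
    have h4 : (μ.prod (ρ.prod ν)) (e2 ⁻¹' (e2 '' N)) = (ρ.prod (μ.prod ν)) (e2 '' N) :=
      (mp2 μ ρ ν).measure_preimage hN'.nullMeasurableSet
    rw [hpre2] at h4
    rw [h4, Measure.measure_prod_null hN']
    refine Eventually.of_forall ?_
    intro z
    show (μ.prod ν) (Prod.mk z ⁻¹' (e2 '' N)) = 0
    have h5 := hz z
    rw [ae_iff] at h5
    refine measure_mono_null ?_ h5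
    rintro p ⟨q, ⟨hq1, hq2⟩, hq3⟩
    rw [e2_apply] at hq3
    obtain ⟨l, z', r⟩ := q
    simp only [Prod.mk.injEq] at hq3
    obtain ⟨rfl, rfl⟩ := hq3
    simp only [mem_setOf_eq, Classical.not_imp]
    exact ⟨hq1, hq2⟩
  have hN1 : (μ.prod (ρ.prod ν)) {q | q ∈ ψ ∧ κ q.1 = 0} = 0 := nullsec μ (ρ.prod ν) hψ
  have hN2 : (μ.prod (ρ.prod ν)) {q | q ∈ ψ ∧ κ' q.2.2 = 0} = 0 := by
    have h6 : (ν.prod (μ.prod ρ)) {q | q ∈ ψ' ∧ κ' q.1 = 0} = 0 := nullsec ν (μ.prod ρ) hψ'
    have hm6 : MeasurableSet {q : R × (L × M) | q ∈ ψ' ∧ κ' q.1 = 0} :=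
      hψ'.inter ((mκ'.comp measurable_fst) (measurableSet_singleton 0))
    have h7 := (mp1 μ ρ ν).measure_preimage hm6.nullMeasurableSet
    rw [h6] at h7
    refine measure_mono_null ?_ h7
    rintro q ⟨hq1, hq2⟩
    refine ⟨⟨q, hq1, rfl⟩, hq2⟩
  refine measure_mono_null ?_ (measure_union_null hN (measure_union_null hN1 hN2))
  intro q hq
  by_cases h1 : κ q.1 = 0
  · exact Or.inr (Or.inl ⟨hq, h1⟩)
  by_cases h2 : κ' q.2.2 = 0
  · exact Or.inr (Or.inr ⟨hq, h2⟩)
  exact Or.inl ⟨hq, mul_ne_zero h1 h2⟩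

end Pool.Agent.W397.FDP3
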